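import Pool.Agent.Helper2.EL.Defs
import Pool.Agent.Helper21.MH.Main3
import Pool.Agent.Helper21.MH.Gal
import Pool.Agent.Helper21.MH.Hodge

/-!
Project TR (MP_b8862a_ag): polarised Hodge structures of even weight all of whose endomorphisms are self-adjoint
(sums of pairwise non isomorphic simple ones with totally real multiplications). Definitions.
-/

set_option linter.unusedSectionVars false

open Matrix

namespace MH

variable {n : Type*} [Fintype n] [DecidableEq n]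

/-- The complex span of the endomorphisms of the Hodge structure. -/
def EC (P : ℤ → Matrix n n ℂ) : Submodule ℂ (Matrix n n ℂ) :=
  Submodule.span ℂ {x | ∃ A : Matrix n n ℚ, (∀ p, toC A * P p = P p * toC A) ∧ x = toC A}

/-- All endomorphisms of the Hodge structure are self-adjoint for the polarisation. -/
def SelfAdj (Q : Matrix n n ℚ) (P : ℤ → Matrix n n ℂ) : Prop :=
  ∀ A : Matrix n n ℚ, (∀ p, toC A * P p = P p * toC A) → Aᵀ * Q = Q * A

/-- `e` is a minimal idempotent of the complexified endomorphism algebra. -/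
structure IsBlock (P : ℤ → Matrix n n ℂ) (e : Matrix n n ℂ) : Prop where
  mem : e ∈ EC P
  idem : e * e = e
  ne : e ≠ 0
  min : ∀ x ∈ EC P, ∃ c : ℂ, x * e = c • e

/-- The middle one of the numbers `r p` dominates: the sum `s` of the `r p` with `p > m` is at least two, and
`s ^ 2 < r m`. -/
def Dom (m : ℤ) (S : Finset ℤ) (r : ℤ → ℕ) : Prop :=
  2 ≤ ∑ p ∈ S.filter (fun p => m < p), r p ∧ (∑ p ∈ S.filter (fun p => m < p), r p) ^ 2 < r m

theorem Dom.two {m : ℤ} {S : Finset ℤ} {r : ℤ → ℕ} (h : Dom m S r) :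
    2 ≤ ∑ p ∈ S.filter (fun p => m < p), r p := h.1

theorem Dom.sq {m : ℤ} {S : Finset ℤ} {r : ℤ → ℕ} (h : Dom m S r) :
    (∑ p ∈ S.filter (fun p => m < p), r p) ^ 2 < r m := h.2

/-- Every block is of type `(m, m)` or its middle Hodge number dominates. -/
def DomAll (m : ℤ) (S : Finset ℤ) (P : ℤ → Matrix n n ℂ) : Prop :=
  ∀ e, IsBlock P e → (∀ p, p ≠ m → e * P p = 0) ∨ Dom m S (fun p => (e * P p).rank)

/-- The largest possible Mumford-Tate group. -/
def InG (m : ℤ) (Q : Matrix n n ℚ) (P : ℤ → Matrix n n ℂ) (g : Matrix n n ℂ) : Prop :=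
  (∀ x ∈ EC P, g * x = x * g) ∧ ∃ z : ℂ, (m = 0 → z = 1) ∧ gᵀ * toC Q * g = z ^ 2 • toC Q ∧
    ∀ e, IsBlock P e → (g * e + (1 - e)).det = z ^ e.rank

/-- A Hodge-Tate decomposition for the group `Γ`: all tensors fixed by subgroups of finite index have weight
zero, and the form `Q` has weight `2 m`. -/
structure IsHT (m : ℤ) (Q : Matrix n n ℚ) (S : Finset ℤ) (Γ : Subgroup (GL n ℂ)) (R : ℤ → Matrix n n ℂ) :
    Prop where
  mul : ∀ p q, R p * R q = if p = q then R p else 0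
  supp : ∀ p, p ∉ S → R p = 0
  sum : ∑ p ∈ S, R p = 1
  orth : ∀ p q, p + q ≠ 2 * m → (R p)ᵀ * toC Q * R q = 0
  ht : ∀ a b t, IsTateTensor Γ a b t → ∀ z : ℂ, z ≠ 0 →
    actF (slot a b (∑ p ∈ S, z ^ p • R p) (∑ p ∈ S, z⁻¹ ^ p • R p)) t = t

/-- `Γ'` is a subgroup of finite index of `Γ`. -/
def FI (Γ' Γ : Subgroup (GL n ℂ)) : Prop := Γ' ≤ Γ ∧ Γ'.relIndex Γ ≠ 0

/-- The `ℓ`-adic data: `Γ` consists of similitudes (isometries in weight zero), its subgroups of finite index are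
semisimple, and for every block there is a Hodge-Tate decomposition such that the block has rank one or its middle
number dominates and its numbers have no common divisor. -/
structure IsGalE (m : ℤ) (Q : Matrix n n ℚ) (P : ℤ → Matrix n n ℂ) (Γ : Subgroup (GL n ℂ)) : Prop where
  sim : ∀ g ∈ Γ, ∃ z : ℂ, (m = 0 → z = 1) ∧ (g : Matrix n n ℂ)ᵀ * toC Q * (g : Matrix n n ℂ) = z ^ 2 • toC Q
  ss : ∀ Γ', FI Γ' Γ → ∀ W : Submodule ℂ (n → ℂ), (∀ g ∈ Γ', ∀ w ∈ W, (g : Matrix n n ℂ) *ᵥ w ∈ W) →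
    ∃ W' : Submodule ℂ (n → ℂ), (∀ g ∈ Γ', ∀ w ∈ W', (g : Matrix n n ℂ) *ᵥ w ∈ W') ∧ IsCompl W W'
  touch : ∀ e, IsBlock P e → ∃ (S : Finset ℤ) (R : ℤ → Matrix n n ℂ), IsHT m Q S Γ R ∧
    (e.rank = 1 ∨ Dom m S (fun p => (e * R p).rank) ∧ ∀ d : ℕ, (∀ p, d ∣ (e * R p).rank) → d = 1)

/-- The commutants of the subgroups of finite index of `Γ` consist of endomorphisms of the Hodge structure, and
some of these subgroups commute with all these endomorphisms. -/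
structure CentEC (P : ℤ → Matrix n n ℂ) (Γ : Subgroup (GL n ℂ)) : Prop where
  cent : ∀ Γ', FI Γ' Γ → ∀ T : Matrix n n ℂ, (∀ g ∈ Γ', (g : Matrix n n ℂ) * T = T * (g : Matrix n n ℂ)) → T ∈ EC P
  comm : ∃ Γ', FI Γ' Γ ∧ ∀ g ∈ Γ', ∀ x ∈ EC P, (g : Matrix n n ℂ) * x = x * (g : Matrix n n ℂ)

/-- the tensor is fixed by the Mumford-Tate group -/
def MTfix (S : Finset ℤ) (P : ℤ → Matrix n n ℂ) (a b : ℕ) (t : (Fin a ⊕ Fin b → n) → ℂ) : Prop :=
  ∀ g ∈ MT S P, actF (slot a b (g : Matrix n n ℂ) ((g⁻¹ : GL n ℂ) : Matrix n n ℂ)) t = t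

/-- a spectral decomposition whose middle number is large -/
def Big (F : ℝ → Matrix n n ℂ) (s : ℕ) : Prop :=
  s ^ 2 < (F 0).rank ∧ Fintype.card n = (F 0).rank + 2 * s ∧ ∀ μ : ℝ, μ ≠ 0 → (F μ).rank ≤ s

/-- all the fields of `Dat` except irreducibility -/
structure Pre (τ : Matrix n n ℂ →ₗ[ℂ] Matrix n n ℂ) (L : Submodule ℂ (Matrix n n ℂ))
    (h : Matrix n n ℂ) (E : ℝ → Matrix n n ℂ) (Λ : Finset ℝ) : Prop where
  inv : Inv τ
  spec : Spec h E Λ
  sk : ∀ x ∈ L, τ x = -x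
  br : ∀ x ∈ L, ∀ y ∈ L, x * y - y * x ∈ L
  st : ∀ x ∈ L, xᴴ ∈ L
  mem : h ∈ L

/-- the span of the brackets of `LG` -/
def LGb (Γ : Subgroup (GL n ℂ)) : Submodule ℂ (Matrix n n ℂ) :=
  Submodule.span ℂ {Z | ∃ A ∈ LG Γ, ∃ B ∈ LG Γ, Z = A * B - B * A}

/-- compression of a linear map to the columns of `w` -/
noncomputable def cpt {k : Type*} [Fintype k] [DecidableEq k] (w : Matrix n k ℂ)
    (τ : Matrix n n ℂ →ₗ[ℂ] Matrix n n ℂ) : Matrix k k ℂ →ₗ[ℂ] Matrix k k ℂ where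
  toFun x := wᴴ * τ (w * x * wᴴ) * w
  map_add' x y := by
    rw [Matrix.mul_add, Matrix.add_mul, map_add, Matrix.mul_add, Matrix.add_mul]
  map_smul' c x := by
    simp only [Matrix.mul_smul, Matrix.smul_mul, map_smul, RingHom.id_apply]

/-- compression of a space of matrices -/
noncomputable def cpL {k : Type*} [Fintype k] [DecidableEq k] (w : Matrix n k ℂ) (v : Matrix k n ℂ)
    (L : Submodule ℂ (Matrix n n ℂ)) : Submodule ℂ (Matrix k k ℂ) where
  carrier := {y | ∃ x ∈ L, y = v * x * w}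
  add_mem' := by
    rintro _ _ ⟨x, hx, rfl⟩ ⟨y, hy, rfl⟩
    exact ⟨x + y, L.add_mem hx hy, by rw [Matrix.mul_add, Matrix.add_mul]⟩
  zero_mem' := ⟨0, L.zero_mem, by simp⟩
  smul_mem' := by
    rintro c _ ⟨x, hx, rfl⟩
    exact ⟨c • x, L.smul_mem c hx, by simp⟩

end MH
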