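import Mathlib

/-!
Skew-symmetric matrices: traces of powers of the adjoint operators, and the contraction identity.
-/

set_option linter.unusedSectionVars false

open Matrix

namespace TR

variable {n : Type*} [Fintype n] [DecidableEq n]

/-- the skew-symmetric matrices -/
def sk (n : Type*) [Fintype n] [DecidableEq n] : Submodule ℂ (Matrix n n ℂ) where
  carrier := {x | xᵀ = -x}
  add_mem' := by
    intro a b ha hb
    show (a + b)ᵀ = -(a + b)
    rw [Matrix.transpose_add, show aᵀ = -a from ha, show bᵀ = -b from hb, neg_add]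
  zero_mem' := by simp
  smul_mem' := by
    intro c a ha
    show (c • a)ᵀ = -(c • a)
    rw [Matrix.transpose_smul, show aᵀ = -a from ha, smul_neg]

theorem mem_sk {x : Matrix n n ℂ} : x ∈ sk n ↔ xᵀ = -x := Iff.rfl

/-- `y ↦ a y b` -/
noncomputable def lr (a b : Matrix n n ℂ) : Matrix n n ℂ →ₗ[ℂ] Matrix n n ℂ where
  toFun y := a * y * b
  map_add' x y := by rw [mul_add, add_mul]
  map_smul' c x := by simp

/-- the transpose as a linear map -/
def tp : Matrix n n ℂ →ₗ[ℂ] Matrix n n ℂ where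
  toFun y := yᵀ
  map_add' x y := Matrix.transpose_add x y
  map_smul' c x := Matrix.transpose_smul c x

@[simp] theorem lr_apply (a b y : Matrix n n ℂ) : lr a b y = a * y * b := rfl
@[simp] theorem tp_apply (y : Matrix n n ℂ) : tp y = yᵀ := rfl

theorem trace_sum_single (f : Matrix n n ℂ →ₗ[ℂ] Matrix n n ℂ) :
    LinearMap.trace ℂ _ f = ∑ i, ∑ j, f (Matrix.single i j 1) i j := by
  rw [LinearMap.trace_eq_matrix_trace ℂ (Matrix.stdBasis ℂ n n), Matrix.trace, Fintype.sum_prod_type]
  refine Finset.sum_congr rfl fun i _ => Finset.sum_congr rfl fun j _ => ?_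
  rw [Matrix.diag_apply, LinearMap.toMatrix_apply, Matrix.stdBasis_eq_single]
  rfl

theorem trace_lr (a b : Matrix n n ℂ) : LinearMap.trace ℂ _ (lr a b) = a.trace * b.trace := by
  rw [trace_sum_single]
  simp only [lr_apply, Matrix.trace, Matrix.diag_apply, Finset.sum_mul_sum]
  refine Finset.sum_congr rfl fun i _ => Finset.sum_congr rfl fun j _ => ?_
  rw [Matrix.mul_apply, Finset.sum_eq_single j]
  · rw [Matrix.mul_apply, Finset.sum_eq_single i]
    · simp
    · intro k _ hk
      simp [Matrix.single_apply, Ne.symm hk]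
    · simp
  · intro k _ hk
    rw [Matrix.mul_apply]
    simp [Matrix.single_apply, Ne.symm hk]
  · simp

theorem trace_lr_tp (a b : Matrix n n ℂ) : LinearMap.trace ℂ _ (lr a b * tp) = (a * bᵀ).trace := by
  rw [trace_sum_single]
  simp only [Module.End.mul_apply, lr_apply, tp_apply, Matrix.trace, Matrix.diag_apply]
  refine Finset.sum_congr rfl fun i _ => ?_
  rw [Matrix.mul_apply]
  refine Finset.sum_congr rfl fun j _ => ?_
  rw [Matrix.transpose_single, Matrix.mul_apply, Finset.sum_eq_single i]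
  · rw [Matrix.mul_apply, Finset.sum_eq_single j]
    · simp
    · intro k _ hk
      simp [Matrix.single_apply, Ne.symm hk]
    · simp
  · intro k _ hk
    rw [Matrix.mul_apply]
    simp [Matrix.single_apply, Ne.symm hk]
  · simp

theorem half_mem (y : Matrix n n ℂ) : (1 / 2 : ℂ) • (y - yᵀ) ∈ sk n := by
  rw [mem_sk, Matrix.transpose_smul, Matrix.transpose_sub, Matrix.transpose_transpose, ← smul_neg, neg_sub]

theorem half_eq {y : Matrix n n ℂ} (hy : y ∈ sk n) : (1 / 2 : ℂ) • (y - yᵀ) = y := by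
  rw [mem_sk.1 hy, sub_neg_eq_add, ← two_smul ℂ y, smul_smul]
  norm_num

theorem trace_sk (f : sk n →ₗ[ℂ] sk n) (G : Matrix n n ℂ →ₗ[ℂ] Matrix n n ℂ) (h : ∀ y : sk n, G y.1 = (f y).1) :
    LinearMap.trace ℂ _ f = (LinearMap.trace ℂ _ G - LinearMap.trace ℂ _ (G * tp)) / 2 := by
  set F : Matrix n n ℂ →ₗ[ℂ] Matrix n n ℂ := (1 / 2 : ℂ) • (G - G * tp) with hF
  have h1 : ∀ y, F y = G ((1 / 2 : ℂ) • (y - yᵀ)) := by
    intro y
    rw [hF]
    simp [map_sub]
  have h2 : ∀ y, F y ∈ sk n := by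
    intro y
    rw [h1, h ⟨_, half_mem y⟩]
    exact (f _).2
  have h3 : F.restrict (fun y (_ : y ∈ sk n) => h2 y) = f := by
    apply LinearMap.ext
    intro y
    apply Subtype.ext
    have e : F y.1 = (f y).1 := by rw [h1, half_eq y.2, h]
    exact e
  have h4 := LinearMap.trace_restrict_eq_of_forall_mem (sk n) F h2
  rw [← h3, h4, hF, map_smul, map_sub, smul_eq_mul]
  ring

/-- the bracket with a skew matrix on the skew matrices -/
noncomputable def adS (x : sk n) : sk n →ₗ[ℂ] sk n where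
  toFun y := ⟨x.1 * y.1 - y.1 * x.1, by
    rw [mem_sk, Matrix.transpose_sub, Matrix.transpose_mul, Matrix.transpose_mul, mem_sk.1 x.2, mem_sk.1 y.2]
    noncomm_ring⟩
  map_add' y z := by
    apply Subtype.ext
    simp only [Submodule.coe_add]
    noncomm_ring
  map_smul' c y := by
    apply Subtype.ext
    simp [smul_sub]

@[simp] theorem adS_coe (x y : sk n) : ((adS x y : sk n) : Matrix n n ℂ) = x.1 * y.1 - y.1 * x.1 := rfl

theorem tr_skew (x : sk n) : x.1.trace = 0 := by
  have h := Matrix.trace_transpose x.1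
  rw [mem_sk.1 x.2, Matrix.trace_neg] at h
  linear_combination -(1 / 2 : ℂ) * h

theorem tr_skew3 (x : sk n) : (x.1 * x.1 * x.1).trace = 0 := by
  have h := Matrix.trace_transpose (x.1 * x.1 * x.1)
  rw [Matrix.transpose_mul, Matrix.transpose_mul, mem_sk.1 x.2] at h
  have e : -x.1 * (-x.1 * -x.1) = -(x.1 * x.1 * x.1) := by noncomm_ring
  rw [e, Matrix.trace_neg] at h
  linear_combination -(1 / 2 : ℂ) * h

theorem trace_ad2 (x : sk n) : LinearMap.trace ℂ _ (adS x * adS x) =
    ((Fintype.card n : ℂ) - 2) * (x.1 * x.1).trace := by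
  rw [trace_sk (adS x * adS x) (lr (x.1 * x.1) 1 - (2 : ℂ) • lr x.1 x.1 + lr 1 (x.1 * x.1)) (by
    intro y
    simp only [LinearMap.add_apply, LinearMap.sub_apply, LinearMap.smul_apply, lr_apply, Module.End.mul_apply,
      adS_coe, two_smul]
    noncomm_ring)]
  simp only [map_add, map_sub, map_smul, trace_lr, add_mul, sub_mul, smul_mul_assoc, trace_lr_tp,
    Matrix.trace_one, smul_eq_mul, tr_skew, Matrix.transpose_one, mul_one, Matrix.transpose_mul, mem_sk.1 x.2, one_mul,
    mul_neg, neg_mul, neg_neg, Matrix.trace_neg]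
  ring

theorem trace_ad4 (x : sk n) : LinearMap.trace ℂ _ (adS x * adS x * (adS x * adS x)) =
    ((Fintype.card n : ℂ) - 8) * (x.1 * x.1 * (x.1 * x.1)).trace + 3 * (x.1 * x.1).trace ^ 2 := by
  have hx3 := tr_skew3 x
  have e1 : (x.1 * (x.1 * x.1)).trace = 0 := by rw [← mul_assoc]; exact hx3
  rw [trace_sk (adS x * adS x * (adS x * adS x)) (lr (x.1 * x.1 * (x.1 * x.1)) 1 -
      (4 : ℂ) • lr (x.1 * x.1 * x.1) x.1 + (6 : ℂ) • lr (x.1 * x.1) (x.1 * x.1) -
      (4 : ℂ) • lr x.1 (x.1 * x.1 * x.1) + lr 1 (x.1 * x.1 * (x.1 * x.1))) (by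
    intro y
    simp only [LinearMap.add_apply, LinearMap.sub_apply, LinearMap.smul_apply, lr_apply, Module.End.mul_apply,
      adS_coe]
    have e4 : (4 : ℂ) = 1 + 1 + 1 + 1 := by norm_num
    have e6 : (6 : ℂ) = 1 + 1 + 1 + 1 + 1 + 1 := by norm_num
    rw [e4, e6]
    simp only [add_smul, one_smul]
    noncomm_ring)]
  simp only [map_add, map_sub, map_smul, trace_lr, add_mul, sub_mul, smul_mul_assoc, trace_lr_tp,
    Matrix.trace_one, smul_eq_mul, tr_skew, Matrix.transpose_one, mul_one, Matrix.transpose_mul, mem_sk.1 x.2, one_mul,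
    mul_neg, neg_mul, neg_neg, Matrix.trace_neg, hx3, ← mul_assoc]
  ring

end TR
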