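import Pool.Agent.Helper14.TR.Gd

/-!
The decomposition of Hermitian skew matrices into elements of rank two; isomorphisms preserve traces of powers.
-/

set_option linter.unusedSectionVars false

open Matrix

namespace TR

variable {n : Type*} [Fintype n] [DecidableEq n] {m : Type*} [Fintype m] [DecidableEq m]

theorem star_dotProduct_star_self' {v : n → ℂ} (h : v ⬝ᵥ v = 0) : star v ⬝ᵥ star v = 0 := by
  have h1 := congrArg star h
  rw [star_zero] at h1
  rw [← h1]
  simp only [dotProduct, star_sum, star_mul', Pi.star_apply]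

/-- an element of rank two from an isotropic unit vector -/
theorem good_of_vec {v : n → ℂ} (h1 : star v ⬝ᵥ v = 1) (h0 : v ⬝ᵥ v = 0) :
    Good (vecMulVec v (star v) - vecMulVec (star v) v) := by
  have h1' : v ⬝ᵥ star v = 1 := by rw [dotProduct_comm, h1]
  have h0' : star v ⬝ᵥ star v = 0 := star_dotProduct_star_self' h0
  have hsq : (vecMulVec v (star v) - vecMulVec (star v) v) * (vecMulVec v (star v) - vecMulVec (star v) v) =
      vecMulVec v (star v) + vecMulVec (star v) v := by
    simp only [sub_mul, mul_sub, Matrix.vecMulVec_mul_vecMulVec, h1, h0, h1', h0', one_smul, zero_smul]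
    simp
  refine ⟨?_, ?_, ?_, ?_⟩
  · rw [Matrix.transpose_sub, Matrix.transpose_vecMulVec, Matrix.transpose_vecMulVec, neg_sub]
  · rw [hsq]
    simp only [add_mul, mul_sub, Matrix.vecMulVec_mul_vecMulVec, h1, h0, h1', h0', one_smul, zero_smul]
    simp
  · rw [hsq, Matrix.trace_add, Matrix.trace_vecMulVec, Matrix.trace_vecMulVec, h1, h1']
    norm_num
  · intro z hz
    have hz' := mem_sk.1 hz
    have e1 : v ⬝ᵥ (z *ᵥ v) = 0 := by
      have h2 : v ⬝ᵥ (z *ᵥ v) = v ⬝ᵥ (zᵀ *ᵥ v) := by
        rw [Matrix.mulVec_transpose, dotProduct_mulVec, dotProduct_comm]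
      rw [hz', Matrix.neg_mulVec, dotProduct_neg] at h2
      linear_combination (1 / 2 : ℂ) * h2
    have e2 : star v ⬝ᵥ (z *ᵥ star v) = 0 := by
      have h2 : star v ⬝ᵥ (z *ᵥ star v) = star v ⬝ᵥ (zᵀ *ᵥ star v) := by
        rw [Matrix.mulVec_transpose, dotProduct_mulVec, dotProduct_comm]
      rw [hz', Matrix.neg_mulVec, dotProduct_neg] at h2
      linear_combination (1 / 2 : ℂ) * h2
    have e3 : v ⬝ᵥ (z *ᵥ star v) = -(star v ⬝ᵥ (z *ᵥ v)) := by
      have h2 : v ⬝ᵥ (z *ᵥ star v) = star v ⬝ᵥ (zᵀ *ᵥ v) := by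
        rw [Matrix.mulVec_transpose, dotProduct_mulVec, dotProduct_comm]
      rw [h2, hz', Matrix.neg_mulVec, dotProduct_neg]
    refine ⟨star v ⬝ᵥ (z *ᵥ v), ?_⟩
    have key : ∀ a b c d : n → ℂ, vecMulVec a b * z * vecMulVec c d = (b ⬝ᵥ (z *ᵥ c)) • vecMulVec a d := by
      intro a b c d
      rw [mul_assoc, Matrix.mul_vecMulVec, Matrix.vecMulVec_mul_vecMulVec, Matrix.vecMulVec_smul]
    simp only [sub_mul, mul_sub, key, e1, e2, e3]
    module

theorem exists_dec (N : ℕ) : ∀ x : Matrix n n ℂ, xᴴ = x → xᵀ = -x →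
    Fintype.card n ≤ N + Module.finrank ℂ (LinearMap.ker (Matrix.toLin' x)) →
    ∃ (k : ℕ) (c : Fin k → ℝ) (t : Fin k → Matrix n n ℂ), (∀ a, Good (t a)) ∧ (∀ a b, a ≠ b → t a * t b = 0) ∧
      x = ∑ a, (c a : ℂ) • t a ∧ ∀ y : Matrix n n ℂ, y * x = 0 → ∀ a, y * t a = 0 := by
  induction N with
  | zero =>
    intro x _ _ hN
    have h1 : LinearMap.ker (Matrix.toLin' x) = ⊤ := by
      apply Submodule.eq_top_of_finrank_eq
      apply le_antisymm (Submodule.finrank_le _)
      rw [Module.finrank_fintype_fun_eq_card]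
      omega
    have h2 : x = 0 := by
      apply Matrix.toLin'.injective
      rw [LinearMap.ker_eq_top.1 h1, map_zero]
    exact ⟨0, fun _ => 0, fun _ => 0, fun a => a.elim0, fun a => a.elim0, by simp [h2], fun _ _ a => a.elim0⟩
  | succ N ih =>
    intro x hx hs hN
    by_cases hx0 : x = 0
    · exact ⟨0, fun _ => 0, fun _ => 0, fun a => a.elim0, fun a => a.elim0, by simp [hx0], fun _ _ a => a.elim0⟩
    -- an eigenvector
    have hH : x.IsHermitian := hx
    obtain ⟨i, hi⟩ : ∃ i, hH.eigenvalues i ≠ 0 := by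
      by_contra hcon
      push Not at hcon
      exact hx0 ((Matrix.IsHermitian.eigenvalues_eq_zero_iff hH).1 (funext hcon))
    set lam : ℝ := hH.eigenvalues i with hlam
    set v : n → ℂ := ⇑(hH.eigenvectorBasis i) with hv
    have hxv : x *ᵥ v = (lam : ℂ) • v := by
      have := hH.mulVec_eigenvectorBasis i
      rw [hv, this]
      rfl
    have h1 : star v ⬝ᵥ v = 1 := by
      have h2 := hH.eigenvectorBasis.orthonormal.1 i
      have h3 : inner ℂ (hH.eigenvectorBasis i) (hH.eigenvectorBasis i) = (1 : ℂ) := by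
        rw [inner_self_eq_norm_sq_to_K, h2]
        simp
      rw [EuclideanSpace.inner_eq_star_dotProduct] at h3
      rw [dotProduct_comm]
      exact h3
    have hl0 : (lam : ℂ) ≠ 0 := by exact_mod_cast hi
    have hvx : v ᵥ* x = -((lam : ℂ) • v) := by
      rw [← Matrix.mulVec_transpose, hs, Matrix.neg_mulVec, hxv]
    have h0 : v ⬝ᵥ v = 0 := by
      have h2 : v ⬝ᵥ (x *ᵥ v) = (v ᵥ* x) ⬝ᵥ v := dotProduct_mulVec _ _ _
      rw [hxv, hvx, dotProduct_smul, neg_dotProduct, smul_dotProduct, smul_eq_mul] at h2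
      have h3 : (2 * (lam : ℂ)) * (v ⬝ᵥ v) = 0 := by linear_combination h2
      exact (mul_eq_zero.1 h3).resolve_left (mul_ne_zero two_ne_zero hl0)
    have hsx : star v ᵥ* x = (lam : ℂ) • star v := by
      have h2 := congrArg star hxv
      rw [Matrix.star_mulVec, hx, star_smul] at h2
      rw [h2]
      congr 1
      exact Complex.conj_ofReal lam
    have hxs : x *ᵥ star v = -((lam : ℂ) • star v) := by
      have h2 : x *ᵥ star v = -(xᵀ *ᵥ star v) := by rw [hs, Matrix.neg_mulVec, neg_neg]
      rw [h2, Matrix.mulVec_transpose, hsx]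
    set t := vecMulVec v (star v) - vecMulVec (star v) v with ht
    have hg : Good t := good_of_vec h1 h0
    have h1' : v ⬝ᵥ star v = 1 := by rw [dotProduct_comm, h1]
    have h0' : star v ⬝ᵥ star v = 0 := star_dotProduct_star_self' h0
    have hsq : t * t = vecMulVec v (star v) + vecMulVec (star v) v := by
      rw [ht]
      simp only [sub_mul, mul_sub, Matrix.vecMulVec_mul_vecMulVec, h1, h0, h1', h0', one_smul, zero_smul]
      simp
    have hxt : x * t = (lam : ℂ) • (t * t) := by
      rw [hsq, ht, mul_sub, Matrix.mul_vecMulVec, Matrix.mul_vecMulVec, hxv, hxs, Matrix.smul_vecMulVec,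
        Matrix.neg_vecMulVec, Matrix.smul_vecMulVec, smul_add]
      abel
    have htx : t * x = (lam : ℂ) • (t * t) := by
      have h2 := congrArg Matrix.transpose hxt
      rw [Matrix.transpose_mul, Matrix.transpose_smul, Matrix.transpose_mul, hg.sk, hs] at h2
      simpa using h2
    have htH : tᴴ = t := by
      rw [ht, conjTranspose_sub, Matrix.conjTranspose_vecMulVec, Matrix.conjTranspose_vecMulVec, star_star]
    set x' := x - (lam : ℂ) • t with hx'
    have hx't : x' * t = 0 := by rw [hx', sub_mul, hxt, smul_mul_assoc, sub_self]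
    have htx' : t * x' = 0 := by rw [hx', mul_sub, htx, mul_smul_comm, sub_self]
    have hx'H : x'ᴴ = x' := by
      rw [hx', conjTranspose_sub, hx, conjTranspose_smul, htH]
      congr 2
      exact Complex.conj_ofReal lam
    have hx's : x'ᵀ = -x' := by
      rw [hx', Matrix.transpose_sub, Matrix.transpose_smul, hs, hg.sk, smul_neg]
      abel
    -- the kernel grows
    have hker : LinearMap.ker (Matrix.toLin' x) < LinearMap.ker (Matrix.toLin' x') := by
      rw [SetLike.lt_iff_le_and_exists]
      constructor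
      · intro w hw
        rw [LinearMap.mem_ker, Matrix.toLin'_apply] at hw ⊢
        have h2 : t *ᵥ w = 0 := by
          have h3 : (lam : ℂ) • ((t * t) *ᵥ w) = 0 := by
            rw [← Matrix.smul_mulVec, ← htx, ← Matrix.mulVec_mulVec, hw, Matrix.mulVec_zero]
          have h4 := (smul_eq_zero.1 h3).resolve_left hl0
          rw [← hg.cube, mul_assoc, ← Matrix.mulVec_mulVec, h4, Matrix.mulVec_zero]
        rw [hx', Matrix.sub_mulVec, Matrix.smul_mulVec, hw, h2, smul_zero, sub_zero]
      · refine ⟨v, ?_, ?_⟩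
        · rw [LinearMap.mem_ker, Matrix.toLin'_apply]
          have h2 : t *ᵥ v = v := by
            rw [ht, Matrix.sub_mulVec, Matrix.vecMulVec_mulVec, Matrix.vecMulVec_mulVec, h1, h0]
            simp
          rw [hx', Matrix.sub_mulVec, Matrix.smul_mulVec, hxv, h2, sub_self]
        · intro h2
          rw [LinearMap.mem_ker, Matrix.toLin'_apply, hxv] at h2
          have h3 := (smul_eq_zero.1 h2).resolve_left hl0
          rw [h3] at h1
          simp at h1
    have hlt := Submodule.finrank_lt_finrank_of_lt hker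
    obtain ⟨k, c, u, g1, g2, g3, g4⟩ := ih x' hx'H hx's (by omega)
    have hyt : ∀ y : Matrix n n ℂ, y * x = 0 → y * t = 0 := by
      intro y hy
      have h3 : (lam : ℂ) • (y * (t * t)) = 0 := by
        rw [← mul_smul_comm, ← hxt, ← mul_assoc, hy, zero_mul]
      have h4 := (smul_eq_zero.1 h3).resolve_left hl0
      rw [← hg.cube, ← mul_assoc, h4, zero_mul]
    have htu : ∀ a, t * u a = 0 := g4 t htx'
    have hut : ∀ a, u a * t = 0 := by
      intro a
      have h2 := congrArg Matrix.transpose (htu a)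
      rw [Matrix.transpose_mul, (g1 a).sk, hg.sk, Matrix.transpose_zero, neg_mul_neg] at h2
      exact h2
    refine ⟨k + 1, Fin.cons lam c, Fin.cons t u, ?_, ?_, ?_, ?_⟩
    · intro a
      refine Fin.cases ?_ (fun a => ?_) a
      · exact hg
      · exact g1 a
    · intro a b
      refine Fin.cases ?_ (fun a => ?_) a
      · refine Fin.cases ?_ (fun b => ?_) b
        · intro h; exact absurd rfl h
        · intro _
          rw [Fin.cons_zero, Fin.cons_succ]
          exact htu b
      · refine Fin.cases ?_ (fun b => ?_) b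
        · intro _
          rw [Fin.cons_zero, Fin.cons_succ]
          exact hut a
        · intro hab
          rw [Fin.cons_succ, Fin.cons_succ]
          exact g2 a b (fun h => hab (by rw [h]))
    · rw [Fin.sum_univ_succ]
      simp only [Fin.cons_zero, Fin.cons_succ]
      rw [← g3, hx']
      abel
    · intro y hy a
      have hy' : y * x' = 0 := by
        rw [hx', mul_sub, hy, mul_smul_comm, hyt y hy, smul_zero, sub_zero]
      refine Fin.cases ?_ (fun a => ?_) a
      · exact hyt y hy
      · exact g4 y hy' a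

theorem pow_sum_orth {A : Type*} [Ring A] {k : ℕ} (u : Fin k → A) (h : ∀ a b, a ≠ b → u a * u b = 0) (j : ℕ) :
    (∑ a, u a) ^ (j + 1) = ∑ a, u a ^ (j + 1) := by
  induction j with
  | zero => simp
  | succ j ih =>
    rw [pow_succ, ih, Finset.sum_mul]
    refine Finset.sum_congr rfl fun a _ => ?_
    rw [Finset.mul_sum, Finset.sum_eq_single a]
    · rw [pow_succ (u a) (j + 1)]
    · intro b _ hb
      rw [pow_succ, mul_assoc, h a b (Ne.symm hb), mul_zero]
    · intro h1
      exact absurd (Finset.mem_univ a) h1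

theorem trace_pow_cube {t : Matrix n n ℂ} {y : Matrix m m ℂ} (ht : t * t * t = t) (hy : y * y * y = y)
    (h1 : t.trace = y.trace) (h2 : (t * t).trace = (y * y).trace) (j : ℕ) :
    (t ^ (j + 1)).trace = (y ^ (j + 1)).trace := by
  induction j using Nat.strong_induction_on with
  | _ j ih =>
    rcases j with _ | _ | j
    · simpa using h1
    · rw [pow_two, pow_two]; exact h2
    · have e1 : t ^ (j + 1 + 1 + 1) = t ^ (j + 1) := by
        rw [pow_succ, pow_succ, pow_succ t j, mul_assoc, mul_assoc, ← mul_assoc t t, ht]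
      have e2 : y ^ (j + 1 + 1 + 1) = y ^ (j + 1) := by
        rw [pow_succ, pow_succ, pow_succ y j, mul_assoc, mul_assoc, ← mul_assoc y y, hy]
      rw [e1, e2]
      exact ih j (by omega)

section transfer

variable (φ : sk n ≃ₗ[ℂ] sk m) (hφ : ∀ x y : sk n, φ (adS x y) = adS (φ x) (φ y))
include hφ

theorem ortho (hn : 3 ≤ Fintype.card n) (h8 : Fintype.card n ≠ 8) {t s : Matrix n n ℂ} (ht : Good t) (hs : Good s)
    (h1 : t * s = 0) (h2 : s * t = 0) : (φ ⟨t, ht.sk⟩).1 * (φ ⟨s, hs.sk⟩).1 = 0 := by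
  set T : sk n := ⟨t, ht.sk⟩ with hT
  set S : sk n := ⟨s, hs.sk⟩ with hS
  have c1 := good_cube φ hφ hn h8 ht
  have c2 := good_cube φ hφ hn h8 hs
  rw [← hT] at c1
  rw [← hS] at c2
  set y := (φ T).1 with hy
  set z := (φ S).1 with hz
  have hcomm : y * z = z * y := by
    have h3 : adS T S = 0 := by
      apply Subtype.ext
      rw [adS_coe]
      show t * s - s * t = 0
      rw [h1, h2, sub_zero]
    have h4 := hφ T S
    rw [h3, map_zero] at h4
    have h5 := congrArg Subtype.val h4
    rw [adS_coe] at h5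
    exact (sub_eq_zero.1 h5.symm)
  have hadd : (φ (T + S)).1 = y + z := by rw [map_add]; rfl
  have hTS : (T + S).1 = t + s := rfl
  have hp2 := p2_eq φ hφ hn (T + S)
  have hp4 := p4_eq φ hφ hn h8 (T + S)
  rw [hadd, hTS] at hp2 hp4
  have hy2 : (y * y).trace = 2 := by
    rw [hy, p2_eq φ hφ hn]
    exact ht.tr2
  have hz2 : (z * z).trace = 2 := by
    rw [hz, p2_eq φ hφ hn]
    exact hs.tr2
  have e1 : (y + z) * (y + z) = y * y + z * z + 2 • (y * z) := by
    rw [add_mul, mul_add, mul_add, ← hcomm]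
    abel
  have e2 : (t + s) * (t + s) = t * t + s * s := by
    rw [add_mul, mul_add, mul_add, h1, h2]
    abel
  have hyz : (y * z).trace = 0 := by
    rw [e1, e2, Matrix.trace_add, Matrix.trace_add, Matrix.trace_add, Matrix.trace_smul, hy2, hz2, ht.tr2,
      hs.tr2, nsmul_eq_mul] at hp2
    linear_combination (1 / 2 : ℂ) * hp2
  have cc : ∀ a b : Matrix m m ℂ, Commute a b → a * b = b * a := fun _ _ h => h
  have e3 : (y + z) * (y + z) * ((y + z) * (y + z)) =
      y * y * y * y + z * z * z * z + 4 • (y * y * y * z) + 4 • (y * (z * z * z)) + 6 • (y * y * (z * z)) := by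
    have hc : Commute y z := hcomm
    rw [e1]
    have q1 : z * z * (y * y) = y * y * (z * z) := ((hc.mul_right hc).mul_left (hc.mul_right hc)).eq.symm
    have q2 : y * y * (y * z) = y * y * y * z := by noncomm_ring
    have q3 : y * z * (y * y) = y * y * y * z := by
      rw [mul_assoc, ((hc.mul_left hc).eq).symm]
      noncomm_ring
    have q4 : z * z * (y * z) = y * (z * z * z) := by
      have : z * z * y = y * (z * z) := ((hc.mul_right hc).eq).symm
      calc z * z * (y * z) = z * z * y * z := by noncomm_ring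
        _ = y * (z * z * z) := by rw [this]; noncomm_ring
    have q5 : y * z * (z * z) = y * (z * z * z) := by noncomm_ring
    have q6 : y * z * (y * z) = y * y * (z * z) := by
      calc y * z * (y * z) = y * (z * y) * z := by noncomm_ring
        _ = y * (y * z) * z := by rw [hcomm]
        _ = _ := by noncomm_ring
    simp only [add_mul, mul_add, smul_mul_assoc, mul_smul_comm, q1, q2, q3, q4, q5, q6, smul_smul]
    have r1 : y * y * (y * y) = y * y * y * y := by noncomm_ring
    have r2 : z * z * (z * z) = z * z * z * z := by noncomm_ring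
    rw [r1, r2]
    module
  have e4 : (t + s) * (t + s) * ((t + s) * (t + s)) = t * t * t * t + s * s * s * s := by
    rw [e2]
    have r1 : t * t * (s * s) = 0 := by rw [mul_assoc, ← mul_assoc t s s, h1, zero_mul, mul_zero]
    have r2 : s * s * (t * t) = 0 := by rw [mul_assoc, ← mul_assoc s t t, h2, zero_mul, mul_zero]
    rw [add_mul, mul_add, mul_add, r1, r2]
    have r3 : t * t * (t * t) = t * t * t * t := by noncomm_ring
    have r4 : s * s * (s * s) = s * s * s * s := by noncomm_ring
    rw [r3, r4]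
    abel
  have hf0 : (y * y * (z * z)).trace = 0 := by
    rw [e3, e4, c1, c2, ht.cube, hs.cube] at hp4
    simp only [Matrix.trace_add, Matrix.trace_smul, hy2, hz2, ht.tr2, hs.tr2, hyz, smul_zero] at hp4
    rw [nsmul_eq_mul] at hp4
    push_cast at hp4
    linear_combination (1 / 6 : ℂ) * hp4
  set f := y * y * (z * z) with hf
  have hff : f * f = f := by
    have hc : Commute y z := hcomm
    have q1 : z * z * (y * y) = y * y * (z * z) := ((hc.mul_right hc).mul_left (hc.mul_right hc)).eq.symm
    calc f * f = y * y * (z * z * (y * y)) * (z * z) := by rw [hf]; noncomm_ring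
      _ = (y * y * y) * y * ((z * z * z) * z) := by rw [q1]; noncomm_ring
      _ = f := by rw [c1, c2]
  have hfz : f = 0 := by
    have h3 := MH.trace_eq_rank hff
    rw [hf0] at h3
    have h4 : f.rank = 0 := by exact_mod_cast h3.symm
    rw [Matrix.rank, Submodule.finrank_eq_zero, LinearMap.range_eq_bot] at h4
    apply Matrix.toLin'.injective
    rw [map_zero]
    exact h4
  calc y * z = (y * y * y) * (z * z * z) := by rw [c1, c2]
    _ = y * (y * y * (z * z)) * z := by noncomm_ring
    _ = 0 := by rw [← hf, hfz, mul_zero, zero_mul]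

/-- all power traces agree on Hermitian elements -/
theorem pk_eq (hn : 3 ≤ Fintype.card n) (h8 : Fintype.card n ≠ 8) (x : sk n) (hx : x.1ᴴ = x.1) (j : ℕ) :
    ((φ x).1 ^ (j + 1)).trace = (x.1 ^ (j + 1)).trace := by
  obtain ⟨k, c, t, g1, g2, g3, -⟩ := exists_dec (Fintype.card n) x.1 hx x.2 (by omega)
  have e1 : (φ x).1 = ∑ a, (c a : ℂ) • (φ ⟨t a, (g1 a).sk⟩).1 := by
    have h1 : x = ∑ a, (c a : ℂ) • (⟨t a, (g1 a).sk⟩ : sk n) := by
      apply Subtype.ext
      rw [g3]
      simp
    conv_lhs => rw [h1]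
    rw [map_sum]
    simp
  have e2 : (x.1) ^ (j + 1) = ∑ a, ((c a : ℂ) • t a) ^ (j + 1) := by
    rw [g3]
    exact pow_sum_orth (fun a => (c a : ℂ) • t a)
      (fun a b hab => by
        show (c a : ℂ) • t a * (c b : ℂ) • t b = 0
        rw [smul_mul_smul_comm, g2 a b hab, smul_zero]) j
  have e3 : ((φ x).1) ^ (j + 1) = ∑ a, ((c a : ℂ) • (φ ⟨t a, (g1 a).sk⟩).1) ^ (j + 1) := by
    rw [e1]
    exact pow_sum_orth (fun a => (c a : ℂ) • (φ ⟨t a, (g1 a).sk⟩).1)
      (fun a b hab => by
        show (c a : ℂ) • (φ ⟨t a, (g1 a).sk⟩).1 * (c b : ℂ) • (φ ⟨t b, (g1 b).sk⟩).1 = 0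
        rw [smul_mul_smul_comm, ortho φ hφ hn h8 (g1 a) (g1 b) (g2 a b hab) (g2 b a (Ne.symm hab)), smul_zero]) j
  rw [e2, e3, Matrix.trace_sum, Matrix.trace_sum]
  refine Finset.sum_congr rfl fun a _ => ?_
  rw [_root_.smul_pow, _root_.smul_pow, Matrix.trace_smul, Matrix.trace_smul]
  congr 1
  refine trace_pow_cube (good_cube φ hφ hn h8 (g1 a)) (g1 a).cube ?_ ?_ j
  · rw [tr_skew, tr_skew ⟨t a, (g1 a).sk⟩]
  · rw [p2_eq φ hφ hn]

end transfer

end TR
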