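import Pool.Agent.Helper5.TR.LHf
import Pool.Agent.Helper45.TR.GalN
import Pool.Agent.Helper61.TR.Fix3
import Pool.Agent.Helper32.TR.Up
import Pool.Agent.Helper53.TR.Idx
import Pool.Agent.Helper85.TR.Fin

/-!
Project TR: the Mumford-Tate group and the tensors fixed by subgroups of finite index.
-/

set_option linter.unusedSectionVars false

open Matrix

namespace MH

variable {n : Type*} [Fintype n] [DecidableEq n]
variable {m : ℤ} {Q : Matrix n n ℚ} {S : Finset ℤ} {P : ℤ → Matrix n n ℂ} {Γ : Subgroup (GL n ℂ)}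

/-- a Hodge tensor is killed by the scalars if the weight is not zero -/
theorem hodge_one (H : IsHS m Q S P) {a b : ℕ} {t : (Fin a ⊕ Fin b → n) → ℚ} (ht : IsHodgeTensor S P a b t)
    (hm : m ≠ 0) : dL a b (tC t) 1 = 0 := by
  have h1 : dL a b (tC t) (∑ p ∈ S, (p : ℂ) • P p) = 0 := (H.idm.inv_iff a b (tC t)).1 ht
  have h2 := H.h0_mem.2 a b t ht
  have h3 : ∑ p ∈ S, ((p - m : ℤ) : ℂ) • P p = ∑ p ∈ S, (p : ℂ) • P p - (m : ℂ) • (1 : Matrix n n ℂ) := by
    rw [← H.sum, Finset.smul_sum, ← Finset.sum_sub_distrib]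
    refine Finset.sum_congr rfl fun p _ => ?_
    rw [← sub_smul]
    congr 1
    simp
  rw [h3, map_sub, h1, zero_sub, map_smul, neg_eq_zero] at h2
  exact (smul_eq_zero.1 h2).resolve_left (by exact_mod_cast hm)

/-- the first clause -/
theorem MT_iff (H : IsHS m Q S P) (hSA : SelfAdj Q P) (hdom : DomAll m S P) (g : GL n ℂ) :
    g ∈ MT S P ↔ InG m Q P (g : Matrix n n ℂ) := by
  refine ⟨fun hg => MT_InG H hSA hg, fun hg => ?_⟩
  intro a b t ht
  refine fix_of_kill H hSA (fun X hXc hXs => ?_) (fun hm => hodge_one H ht hm) hg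
  exact (LH_full H hSA hdom hXs hXc).2 a b t ht

/-- the second clause -/
theorem tate_all (H : IsHS m Q S P) (hSA : SelfAdj Q P) (hdom : DomAll m S P) (G : IsGalE m Q P Γ)
    (C : CentEC P Γ) (a b : ℕ) (t : (Fin a ⊕ Fin b → n) → ℂ) : IsTateTensor Γ a b t ↔ MTfix S P a b t := by
  constructor
  · intro ht g hg
    refine fix_of_kill H hSA (fun X hXc hXs => ?_) (fun hm => ?_) (MT_InG H hSA hg)
    · exact IsGalE.LG_full H hSA G C hXs hXc a b t ht
    · exact IsGalE.scal H hSA G C hm a b t ht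
  · intro ht
    obtain ⟨Γ', hΓ, h⟩ := IsGalE.exists_idx H hSA G C
    exact ⟨Γ', hΓ.1, hΓ.2, fun g hg => ht g ((MT_iff H hSA hdom g).2 (h g hg))⟩

/-- tensors of type (1,1) are enough -/
theorem tate_of_end (H : IsHS m Q S P) (hSA : SelfAdj Q P) (hdom : DomAll m S P) (G : IsGalE m Q P Γ) :
    (∀ t : (Fin 1 ⊕ Fin 1 → n) → ℂ, IsTateTensor Γ 1 1 t ↔ MTfix S P 1 1 t) ↔
      ∀ (a b : ℕ) (t : (Fin a ⊕ Fin b → n) → ℂ), IsTateTensor Γ a b t ↔ MTfix S P a b t :=
  ⟨fun h11 a b t => tate_all H hSA hdom G (centEC_of H h11) a b t, fun h => h 1 1⟩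

end MH
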