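import Pool.Agent.Helper14.TR.Sk
import Pool.Agent.Helper21.MH.Bound

/-!
The contraction identity, elements of rank two, and the decomposition of Hermitian skew matrices.
-/

set_option linter.unusedSectionVars false

open Matrix

namespace TR

variable {n : Type*} [Fintype n] [DecidableEq n] {m : Type*} [Fintype m] [DecidableEq m]

/-- the contraction of a linear map of matrices -/
noncomputable def contr (G : Matrix n n ℂ →ₗ[ℂ] Matrix n n ℂ) : Matrix n n ℂ :=
  ∑ i, ∑ j, G (Matrix.single i j 1 - Matrix.single j i 1) * Matrix.single j i 1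

theorem contr_lr (a b : Matrix n n ℂ) : contr (lr a b) = b.trace • a - a * bᵀ := by
  unfold contr
  have h1 : ∀ i j : n, lr a b (Matrix.single i j 1 - Matrix.single j i 1) * Matrix.single j i 1 =
      a * (b j j • Matrix.single i i 1) - a * (b i j • Matrix.single j i 1) := by
    intro i j
    rw [lr_apply, mul_sub, sub_mul, sub_mul, mul_assoc a, mul_assoc a, mul_assoc a, mul_assoc a,
      Matrix.single_mul_mul_single, Matrix.single_mul_mul_single]
    simp [Matrix.smul_single]
  simp_rw [h1, Finset.sum_sub_distrib, ← Finset.mul_sum]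
  congr 1
  · have h2 : ∑ i : n, ∑ j : n, b j j • Matrix.single i i (1 : ℂ) = b.trace • (1 : Matrix n n ℂ) := by
      simp_rw [← Finset.sum_smul]
      rw [← Finset.smul_sum]
      congr 1
      ext p q
      rw [Matrix.sum_apply]
      by_cases hpq : p = q
      · subst hpq
        rw [Finset.sum_eq_single p]
        · simp
        · intro i _ hi
          simp [hi]
        · simp
      · rw [Matrix.one_apply_ne hpq]
        refine Finset.sum_eq_zero fun i _ => ?_
        rw [Matrix.single_apply]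
        rw [if_neg]
        rintro ⟨rfl, rfl⟩
        exact hpq rfl
    rw [h2, mul_smul_comm, mul_one]
  · congr 1
    ext p q
    simp only [Matrix.sum_apply, Matrix.smul_apply, Matrix.single_apply, smul_eq_mul, Matrix.transpose_apply]
    rw [Finset.sum_eq_single q]
    · rw [Finset.sum_eq_single p]
      · simp
      · intro j _ hj
        simp [hj]
      · simp
    · intro i _ hi
      refine Finset.sum_eq_zero fun j _ => ?_
      simp [hi]
    · simp

theorem contr_add (F G : Matrix n n ℂ →ₗ[ℂ] Matrix n n ℂ) : contr (F + G) = contr F + contr G := by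
  unfold contr
  simp only [LinearMap.add_apply, add_mul, Finset.sum_add_distrib]

theorem contr_smul (c : ℂ) (G : Matrix n n ℂ →ₗ[ℂ] Matrix n n ℂ) : contr (c • G) = c • contr G := by
  unfold contr
  simp only [LinearMap.smul_apply, smul_mul_assoc, Finset.smul_sum]

theorem contr_zero {G : Matrix n n ℂ →ₗ[ℂ] Matrix n n ℂ} (h : ∀ z ∈ sk n, G z = 0) : contr G = 0 := by
  unfold contr
  refine Finset.sum_eq_zero fun i _ => Finset.sum_eq_zero fun j _ => ?_
  rw [h, zero_mul]
  rw [mem_sk, Matrix.transpose_sub, Matrix.transpose_single, Matrix.transpose_single, neg_sub]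

/-- If the bracket with `y` satisfies `D ^ 3 = D` on skew matrices, then `(m - 8) y ^ 3 + (3 tr y ^ 2 - m + 2) y = 0`. -/
theorem cubic (y : sk n) (h : adS y * adS y * adS y = adS y) :
    ((Fintype.card n : ℂ) - 8) • (y.1 * y.1 * y.1) + (3 * (y.1 * y.1).trace - Fintype.card n + 2) • y.1 = 0 := by
  have h1 : ∀ z ∈ sk n, (lr (y.1 * y.1 * y.1) 1 + (-3 : ℂ) • lr (y.1 * y.1) y.1 + (3 : ℂ) • lr y.1 (y.1 * y.1) +
      (-1 : ℂ) • lr 1 (y.1 * y.1 * y.1) + (-1 : ℂ) • lr y.1 1 + (1 : ℂ) • lr 1 y.1) z = 0 := by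
    intro z hz
    have h2 := congrArg Subtype.val (LinearMap.congr_fun h ⟨z, hz⟩)
    simp only [Module.End.mul_apply, adS_coe] at h2
    rw [← sub_eq_zero] at h2
    rw [← h2]
    simp only [LinearMap.add_apply, LinearMap.smul_apply, lr_apply, neg_smul, one_smul]
    have e3 : (3 : ℂ) = 1 + 1 + 1 := by norm_num
    rw [e3]
    simp only [add_smul, one_smul]
    noncomm_ring
  have h3 := contr_zero h1
  simp only [contr_add, contr_smul, contr_lr, Matrix.trace_one, tr_skew, tr_skew3, Matrix.transpose_one, mul_one,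
    Matrix.transpose_mul, mem_sk.1 y.2, zero_smul, one_mul] at h3
  have e : y.1 * (-y.1 * -y.1) = y.1 * y.1 * y.1 := by noncomm_ring
  have e' : y.1 * y.1 * -y.1 = -(y.1 * y.1 * y.1) := by noncomm_ring
  have e'' : -y.1 * (-y.1 * -y.1) = -(y.1 * y.1 * y.1) := by noncomm_ring
  rw [e, e', e''] at h3
  rw [← h3]
  module

/-- the elements of rank two -/
structure Good (t : Matrix n n ℂ) : Prop where
  sk : tᵀ = -t
  cube : t * t * t = t
  tr2 : (t * t).trace = 2
  sand : ∀ z ∈ TR.sk n, ∃ c : ℂ, t * z * t = c • t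

theorem Good.ad {t : Matrix n n ℂ} (h : Good t) : adS ⟨t, h.sk⟩ * adS ⟨t, h.sk⟩ * adS ⟨t, h.sk⟩ = adS ⟨t, h.sk⟩ := by
  apply LinearMap.ext
  intro z
  apply Subtype.ext
  simp only [Module.End.mul_apply, adS_coe]
  obtain ⟨c, hc⟩ := h.sand z.1 z.2
  have e : t * (t * (t * z.1 - z.1 * t) - (t * z.1 - z.1 * t) * t) - (t * (t * z.1 - z.1 * t) -
      (t * z.1 - z.1 * t) * t) * t = t * t * t * z.1 - z.1 * (t * t * t) - 3 • (t * (t * z.1 * t) - (t * z.1 * t) * t) := by
    noncomm_ring
  rw [e, h.cube, hc, mul_smul_comm, smul_mul_assoc, sub_self, smul_zero, sub_zero]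

theorem tr_cube {t : Matrix n n ℂ} (h : t * t * t = t) (h2 : (t * t).trace = 2) : (t * t * (t * t)).trace = 2 := by
  have e : t * t * (t * t) = t * t * t * t := by noncomm_ring
  rw [e, h, h2]

theorem trace_id_sk (p : Type*) [Fintype p] [DecidableEq p] : LinearMap.trace ℂ _ (LinearMap.id : sk p →ₗ[ℂ] sk p) =
    ((Fintype.card p : ℂ) * Fintype.card p - Fintype.card p) / 2 := by
  rw [trace_sk (LinearMap.id : sk p →ₗ[ℂ] sk p) (lr 1 1) (fun y => by simp), trace_lr, trace_lr_tp]
  simp

section transfer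

variable (φ : sk n ≃ₗ[ℂ] sk m) (hφ : ∀ x y : sk n, φ (adS x y) = adS (φ x) (φ y))
include hφ

theorem adS_conj (x : sk n) : adS (φ x) = φ.conj (adS x) := by
  apply LinearMap.ext
  intro z
  rw [LinearEquiv.conj_apply_apply, hφ, LinearEquiv.apply_symm_apply]

theorem card_eq (hn : 2 ≤ Fintype.card n) : Fintype.card n = Fintype.card m := by
  have h2 := LinearMap.trace_conj' (LinearMap.id : sk n →ₗ[ℂ] sk n) φ
  have h3 : φ.conj (LinearMap.id : sk n →ₗ[ℂ] sk n) = LinearMap.id := by
    apply LinearMap.ext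
    intro z
    simp
  rw [h3, trace_id_sk, trace_id_sk] at h2
  have h4 : ((Fintype.card m * Fintype.card m + Fintype.card n : ℕ) : ℂ) =
      ((Fintype.card n * Fintype.card n + Fintype.card m : ℕ) : ℂ) := by
    push_cast
    linear_combination 2 * h2
  have h5 : Fintype.card m * Fintype.card m + Fintype.card n = Fintype.card n * Fintype.card n + Fintype.card m := by
    exact_mod_cast h4
  rcases lt_trichotomy (Fintype.card n) (Fintype.card m) with h | h | h
  · nlinarith
  · exact h
  · nlinarith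

theorem p2_eq (hn : 3 ≤ Fintype.card n) (x : sk n) :
    ((φ x).1 * (φ x).1).trace = (x.1 * x.1).trace := by
  have h1 := LinearMap.trace_conj' (adS x * adS x) φ
  have h2 : φ.conj (adS x * adS x) = adS (φ x) * adS (φ x) := by
    rw [adS_conj φ hφ, Module.End.mul_eq_comp, LinearEquiv.conj_comp]
    rfl
  rw [h2, trace_ad2, trace_ad2, ← card_eq φ hφ (by omega)] at h1
  have h3 : ((Fintype.card n : ℂ) - 2) ≠ 0 := by
    have h4 : ((Fintype.card n : ℂ) - 2) = ((Fintype.card n - 2 : ℕ) : ℂ) := by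
      rw [Nat.cast_sub (by omega)]
      norm_num
    rw [h4]
    exact_mod_cast (by omega : Fintype.card n - 2 ≠ 0)
  exact mul_left_cancel₀ h3 h1

theorem card_sub8 (h8 : Fintype.card n ≠ 8) : ((Fintype.card n : ℂ) - 8) ≠ 0 := by
  intro h
  apply h8
  have : (Fintype.card n : ℂ) = (8 : ℕ) := by
    push_cast
    linear_combination h
  exact_mod_cast this

theorem p4_eq (hn : 3 ≤ Fintype.card n) (h8 : Fintype.card n ≠ 8) (x : sk n) :
    ((φ x).1 * (φ x).1 * ((φ x).1 * (φ x).1)).trace = (x.1 * x.1 * (x.1 * x.1)).trace := by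
  have h1 := LinearMap.trace_conj' (adS x * adS x * (adS x * adS x)) φ
  have h2 : φ.conj (adS x * adS x * (adS x * adS x)) = adS (φ x) * adS (φ x) * (adS (φ x) * adS (φ x)) := by
    rw [adS_conj φ hφ]
    simp only [Module.End.mul_eq_comp, LinearEquiv.conj_comp]
  rw [h2, trace_ad4, trace_ad4, ← card_eq φ hφ (by omega), p2_eq φ hφ hn] at h1
  exact mul_left_cancel₀ (card_sub8 φ hφ h8) (add_right_cancel h1)

/-- the image of an element of rank two -/
theorem good_cube (hn : 3 ≤ Fintype.card n) (h8 : Fintype.card n ≠ 8) {t : Matrix n n ℂ} (h : Good t) :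
    (φ ⟨t, h.sk⟩).1 * (φ ⟨t, h.sk⟩).1 * (φ ⟨t, h.sk⟩).1 = (φ ⟨t, h.sk⟩).1 := by
  set y := φ ⟨t, h.sk⟩ with hy
  have h1 : adS y * adS y * adS y = adS y := by
    rw [hy, adS_conj φ hφ]
    have := congrArg φ.conj h.ad
    simp only [Module.End.mul_eq_comp, LinearEquiv.conj_comp] at this ⊢
    exact this
  have h2 := cubic y h1
  rw [p2_eq φ hφ hn, show ((⟨t, h.sk⟩ : sk n).1 * (⟨t, h.sk⟩ : sk n).1).trace = 2 from h.tr2,
    ← card_eq φ hφ (by omega)] at h2
  have h3 : ((Fintype.card n : ℂ) - 8) • (y.1 * y.1 * y.1 - y.1) = 0 := by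
    rw [← h2]
    module
  exact sub_eq_zero.1 ((smul_eq_zero.1 h3).resolve_left (card_sub8 φ hφ h8))

end transfer

end TR
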