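import Mathlib

/-!
The algebra generated by a real space of elements closed under brackets up to scalars is spanned by powers.
-/

set_option linter.unusedSectionVars false

namespace TR

variable {A : Type*} [Ring A] [Algebra ℂ A]

/-- coefficients of a polynomial with values in a subspace -/
theorem coeff_mem (M : Submodule ℂ A) (d : ℕ) (C : ℕ → A)
    (h : ∀ t : ℝ, ∑ j ∈ Finset.range d, ((t : ℂ) ^ j) • C j ∈ M) : ∀ j ∈ Finset.range d, C j ∈ M := by
  intro j hj
  by_contra hn
  obtain ⟨f, hf, hM⟩ := Submodule.exists_le_ker_of_notMem hn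
  set p : Polynomial ℂ := ∑ i ∈ Finset.range d, Polynomial.C (f (C i)) * Polynomial.X ^ i with hp
  have hev : ∀ t : ℝ, p.eval (t : ℂ) = 0 := by
    intro t
    have h1 : f (∑ i ∈ Finset.range d, ((t : ℂ) ^ i) • C i) = 0 := hM (h t)
    rw [map_sum] at h1
    rw [hp, Polynomial.eval_finset_sum, ← h1]
    refine Finset.sum_congr rfl fun i _ => ?_
    rw [map_smul, Polynomial.eval_mul, Polynomial.eval_C, Polynomial.eval_pow, Polynomial.eval_X, smul_eq_mul,
      mul_comm]
  have hp0 : p = 0 := by
    apply Polynomial.eq_zero_of_infinite_isRoot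
    have h2 : Set.range (fun t : ℝ => (t : ℂ)) ⊆ {x | p.IsRoot x} := by
      rintro _ ⟨t, rfl⟩
      exact hev t
    exact (Set.infinite_range_of_injective Complex.ofReal_injective).mono h2
  have h3 : p.coeff j = f (C j) := by
    rw [hp, Polynomial.finset_sum_coeff]
    rw [Finset.sum_eq_single j]
    · simp
    · intro i _ hij
      rw [Polynomial.coeff_C_mul, Polynomial.coeff_X_pow, if_neg (Ne.symm hij), mul_zero]
    · intro h4
      exact absurd hj h4
  rw [hp0, Polynomial.coeff_zero] at h3
  exact hf h3.symm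

/-- the expansion of `(x + t y) ^ k` -/
theorem pow_expand (x y : A) (k : ℕ) : ∃ C : ℕ → A,
    (∀ t : ℂ, (x + t • y) ^ k = ∑ j ∈ Finset.range (k + 1), (t ^ j) • C j) ∧ C 0 = x ^ k ∧
      (C 1 = ∑ j ∈ Finset.range k, x ^ j * y * x ^ (k - 1 - j)) ∧ ∀ j, k < j → C j = 0 := by
  induction k with
  | zero =>
    refine ⟨fun j => if j = 0 then 1 else 0, fun t => ?_, by simp, by simp, fun j hj => ?_⟩
    · simp
    · exact if_neg (by omega)
  | succ k ih =>
    obtain ⟨C, h1, h2, h3, h4⟩ := ih
    refine ⟨fun j => C j * x + (if j = 0 then 0 else C (j - 1) * y), fun t => ?_, ?_, ?_, fun j hj => ?_⟩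
    · rw [pow_succ, h1]
      have e1 : ∑ j ∈ Finset.range (k + 1 + 1), t ^ j • (C j * x + if j = 0 then 0 else C (j - 1) * y) =
          (∑ j ∈ Finset.range (k + 1), t ^ j • (C j * x)) + ∑ j ∈ Finset.range (k + 1), t ^ (j + 1) • (C j * y) := by
        simp only [smul_add, Finset.sum_add_distrib]
        congr 1
        · rw [Finset.sum_range_succ, h4 (k + 1) (by omega)]
          simp
        · rw [Finset.sum_range_succ']
          simp
      rw [e1, mul_add, Finset.sum_mul, Finset.sum_mul]
      congr 1
      · exact Finset.sum_congr rfl fun j _ => by rw [smul_mul_assoc]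
      · refine Finset.sum_congr rfl fun j _ => ?_
        rw [smul_mul_assoc, mul_smul_comm, smul_smul, pow_succ]
    · simp [h2, pow_succ]
    · simp only [one_ne_zero, if_false]
      rw [Finset.sum_range_succ, Nat.sub_self, h2, h3, Finset.sum_mul]
      rw [show k + 1 - 1 - k = 0 by omega, pow_zero, mul_one]
      congr 1
      refine Finset.sum_congr rfl fun j hj => ?_
      have hj' := Finset.mem_range.1 hj
      rw [show k + 1 - 1 - j = (k - 1 - j) + 1 by omega, pow_succ, ← mul_assoc]
    · show C j * x + (if j = 0 then 0 else C (j - 1) * y) = 0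
      rw [h4 j (by omega), h4 (j - 1) (by omega)]
      simp

/-- Let `X` be a set of elements which contains `x + t y` for real `t` and, up to a scalar, the brackets. Then the
powers of its elements span an algebra. -/
theorem adjoin_le_powers (X : Set A) (h0 : X.Nonempty) (hadd : ∀ x ∈ X, ∀ y ∈ X, ∀ t : ℝ, x + (t : ℂ) • y ∈ X)
    (hbr : ∀ x ∈ X, ∀ y ∈ X, ∃ z ∈ X, ∃ c : ℂ, x * y - y * x = c • z) :
    ∀ a ∈ Algebra.adjoin ℂ X, a ∈ Submodule.span ℂ {b : A | ∃ x ∈ X, ∃ k : ℕ, b = x ^ k} := by
  set M := Submodule.span ℂ {b : A | ∃ x ∈ X, ∃ k : ℕ, b = x ^ k} with hM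
  have hpow : ∀ x ∈ X, ∀ k, x ^ k ∈ M := fun x hx k => Submodule.subset_span ⟨x, hx, k, rfl⟩
  -- the main claim
  have key : ∀ k : ℕ, ∀ x ∈ X, ∀ y ∈ X, ∀ a b : ℕ, a + b = k → x ^ a * y * x ^ b ∈ M := by
    intro k
    induction k with
    | zero =>
      intro x hx y hy a b hab
      have ha : a = 0 := by omega
      have hb : b = 0 := by omega
      subst ha hb
      simpa using hpow y hy 1
    | succ k ih =>
      intro x hx y hy
      -- consecutive terms are congruent
      have h1 : ∀ a b : ℕ, a + b = k → x ^ a * y * x ^ (b + 1) - x ^ (a + 1) * y * x ^ b ∈ M := by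
        intro a b hab
        obtain ⟨z, hz, c, hc⟩ := hbr y hy x hx
        have e1 : x ^ a * y * x ^ (b + 1) - x ^ (a + 1) * y * x ^ b = c • (x ^ a * z * x ^ b) := by
          rw [pow_succ' x b, pow_succ x a]
          have e2 : x ^ a * y * (x * x ^ b) - x ^ a * x * y * x ^ b = x ^ a * (y * x - x * y) * x ^ b := by
            noncomm_ring
          rw [e2, hc, mul_smul_comm, smul_mul_assoc]
        rw [e1]
        exact M.smul_mem _ (ih x hx z hz a b hab)
      have h2 : ∀ a b : ℕ, a + b = k + 1 → x ^ a * y * x ^ b - x ^ (k + 1) * y ∈ M := by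
        intro a b
        induction b generalizing a with
        | zero =>
          intro hab
          have : a = k + 1 := by omega
          subst this
          simp
        | succ b ihb =>
          intro hab
          have h3 := h1 a b (by omega)
          have h4 := ihb (a + 1) (by omega)
          have h5 := M.add_mem h3 h4
          have e : x ^ a * y * x ^ (b + 1) - x ^ (a + 1) * y * x ^ b + (x ^ (a + 1) * y * x ^ b - x ^ (k + 1) * y) =
              x ^ a * y * x ^ (b + 1) - x ^ (k + 1) * y := by abel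
          rwa [e] at h5
      -- the sum of all the terms
      have h3 : ∑ j ∈ Finset.range (k + 2), x ^ j * y * x ^ (k + 2 - 1 - j) ∈ M := by
        obtain ⟨C, c1, c2, c3, c4⟩ := pow_expand x y (k + 2)
        rw [← c3]
        refine coeff_mem M (k + 2 + 1) C ?_ 1 (Finset.mem_range.2 (by omega))
        intro t
        rw [← c1]
        exact hpow _ (hadd x hx y hy t) _
      have h4 : ∑ j ∈ Finset.range (k + 2), (x ^ j * y * x ^ (k + 2 - 1 - j) - x ^ (k + 1) * y) ∈ M :=
        M.sum_mem fun j hj => h2 j (k + 2 - 1 - j) (by have := Finset.mem_range.1 hj; omega)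
      rw [Finset.sum_sub_distrib, Finset.sum_const, Finset.card_range] at h4
      have h5 : (k + 2) • (x ^ (k + 1) * y) ∈ M := by
        have h6 := M.sub_mem h3 h4
        rwa [sub_sub_cancel] at h6
      have h6 : x ^ (k + 1) * y ∈ M := by
        rw [← Nat.cast_smul_eq_nsmul ℂ] at h5
        have h7 := M.smul_mem (((k + 2 : ℕ) : ℂ)⁻¹) h5
        rwa [smul_smul, inv_mul_cancel₀ (by exact_mod_cast (by omega : k + 2 ≠ 0)), one_smul] at h7
      intro a b hab
      have h7 := M.add_mem (h2 a b hab) h6
      rwa [sub_add_cancel] at h7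
  -- stable under right multiplication
  have hright : ∀ a ∈ M, ∀ y ∈ X, a * y ∈ M := by
    intro a ha y hy
    refine Submodule.span_induction (p := fun a _ => a * y ∈ M) ?_ ?_ ?_ ?_ ha
    · rintro _ ⟨x, hx, k, rfl⟩
      simpa using key k x hx y hy k 0 (by omega)
    · simp
    · intro u v _ _ hu hv
      rw [add_mul]
      exact M.add_mem hu hv
    · intro c u _ hu
      rw [smul_mul_assoc]
      exact M.smul_mem c hu
  obtain ⟨x0, hx0⟩ := h0
  have h1 : (1 : A) ∈ M := by simpa using hpow x0 hx0 0
  have hall : ∀ b ∈ Algebra.adjoin ℂ X, ∀ a ∈ M, a * b ∈ M := by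
    intro b hb
    refine Algebra.adjoin_induction (p := fun b _ => ∀ a ∈ M, a * b ∈ M) ?_ ?_ ?_ ?_ hb
    · intro y hy a ha
      exact hright a ha y hy
    · intro r a ha
      rw [← Algebra.commutes, ← Algebra.smul_def]
      exact M.smul_mem r ha
    · intro u v _ _ hu hv a ha
      rw [mul_add]
      exact M.add_mem (hu a ha) (hv a ha)
    · intro u v _ _ hu hv a ha
      rw [← mul_assoc]
      exact hv _ (hu a ha)
  intro a ha
  have := hall a ha 1 h1
  rwa [one_mul] at this

end TR
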