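import Pool.Agent.Helper14.TR.Dec
import Pool.Agent.Helper14.TR.Pw

/-!
Every isomorphism between Lie algebras of skew matrices (of size at least three and not eight) is the conjugation
by an invertible matrix.
-/

set_option linter.unusedSectionVars false

open Matrix

namespace TR

variable {n : Type*} [Fintype n] [DecidableEq n] {m : Type*} [Fintype m] [DecidableEq m]

theorem sum_single_one {c : ℂ} (hc : c ≠ 0) : ∑ i : n, c⁻¹ • Matrix.single i i c = (1 : Matrix n n ℂ) := by
  ext r s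
  rw [Matrix.sum_apply]
  by_cases hrs : r = s
  · subst hrs
    rw [Finset.sum_eq_single r]
    · simp [inv_mul_cancel₀ hc]
    · intro i _ hi
      simp [hi]
    · simp
  · rw [Matrix.one_apply_ne hrs]
    refine Finset.sum_eq_zero fun i _ => ?_
    rw [Matrix.smul_apply, Matrix.single_apply, if_neg, smul_zero]
    rintro ⟨rfl, rfl⟩
    exact hrs rfl

/-- an ideal of pairs whose first coordinates are everything -/
theorem one_mem_left {A : Subalgebra ℂ (Matrix n n ℂ × Matrix m m ℂ)}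
    (h1 : ∀ a : Matrix n n ℂ, ∃ b, (a, b) ∈ A) {a : Matrix n n ℂ} (ha : (a, (0 : Matrix m m ℂ)) ∈ A) (h0 : a ≠ 0) :
    ((1 : Matrix n n ℂ), (0 : Matrix m m ℂ)) ∈ A := by
  obtain ⟨p, q, hpq⟩ : ∃ p q, a p q ≠ 0 := by
    by_contra hcon
    push Not at hcon
    exact h0 (by ext i j; exact hcon i j)
  have h2 : ∀ i : n, (Matrix.single i i (a p q), (0 : Matrix m m ℂ)) ∈ A := by
    intro i
    obtain ⟨b, hb⟩ := h1 (Matrix.single i p 1)
    obtain ⟨c, hc⟩ := h1 (Matrix.single q i 1)
    have h3 := A.mul_mem (A.mul_mem hb ha) hc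
    rw [Prod.mk_mul_mk, Prod.mk_mul_mk, mul_zero, zero_mul, Matrix.single_mul_mul_single, one_mul, mul_one] at h3
    exact h3
  have h3 : ∑ i : n, ((a p q)⁻¹ • (Matrix.single i i (a p q), (0 : Matrix m m ℂ))) ∈ A :=
    A.sum_mem fun i _ => A.smul_mem (h2 i) _
  have h4 : ∑ i : n, ((a p q)⁻¹ • (Matrix.single i i (a p q), (0 : Matrix m m ℂ))) = (1, 0) := by
    apply Prod.ext
    · rw [Prod.fst_sum]
      exact sum_single_one hpq
    · rw [Prod.snd_sum]
      exact Finset.sum_eq_zero fun i _ => by simp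
  rwa [h4] at h3

theorem one_mem_right {A : Subalgebra ℂ (Matrix n n ℂ × Matrix m m ℂ)}
    (h1 : ∀ b : Matrix m m ℂ, ∃ a, (a, b) ∈ A) {b : Matrix m m ℂ} (hb : ((0 : Matrix n n ℂ), b) ∈ A) (h0 : b ≠ 0) :
    ((0 : Matrix n n ℂ), (1 : Matrix m m ℂ)) ∈ A := by
  obtain ⟨p, q, hpq⟩ : ∃ p q, b p q ≠ 0 := by
    by_contra hcon
    push Not at hcon
    exact h0 (by ext i j; exact hcon i j)
  have h2 : ∀ i : m, ((0 : Matrix n n ℂ), Matrix.single i i (b p q)) ∈ A := by
    intro i
    obtain ⟨a, ha⟩ := h1 (Matrix.single i p 1)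
    obtain ⟨c, hc⟩ := h1 (Matrix.single q i 1)
    have h3 := A.mul_mem (A.mul_mem ha hb) hc
    rw [Prod.mk_mul_mk, Prod.mk_mul_mk, mul_zero, zero_mul, Matrix.single_mul_mul_single, one_mul, mul_one] at h3
    exact h3
  have h3 : ∑ i : m, ((b p q)⁻¹ • ((0 : Matrix n n ℂ), Matrix.single i i (b p q))) ∈ A :=
    A.sum_mem fun i _ => A.smul_mem (h2 i) _
  have h4 : ∑ i : m, ((b p q)⁻¹ • ((0 : Matrix n n ℂ), Matrix.single i i (b p q))) = (0, 1) := by
    apply Prod.ext
    · rw [Prod.fst_sum]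
      exact Finset.sum_eq_zero fun i _ => by simp
    · rw [Prod.snd_sum]
      exact sum_single_one hpq
  rwa [h4] at h3

/-- the skew matrices generate all matrices -/
theorem adjoin_sk (hn : 3 ≤ Fintype.card n) {B : Subalgebra ℂ (Matrix n n ℂ)} (hB : ∀ x ∈ sk n, x ∈ B)
    (a : Matrix n n ℂ) : a ∈ B := by
  have hsk : ∀ i j : n, Matrix.single i j (1 : ℂ) - Matrix.single j i 1 ∈ B := by
    intro i j
    apply hB
    rw [mem_sk, Matrix.transpose_sub, Matrix.transpose_single, Matrix.transpose_single, neg_sub]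
  have hoff : ∀ i j : n, i ≠ j → Matrix.single i j (1 : ℂ) ∈ B := by
    intro i j hij
    obtain ⟨k, hk⟩ : ∃ k : n, k ∉ ({i, j} : Finset n) := by
      by_contra hcon
      push Not at hcon
      have h1 : (Finset.univ : Finset n) ⊆ {i, j} := fun k _ => hcon k
      have h2 := Finset.card_le_card h1
      have h3 := Finset.card_le_two (a := i) (b := j)
      rw [Finset.card_univ] at h2
      omega
    simp only [Finset.mem_insert, Finset.mem_singleton, not_or] at hk
    have h1 := B.mul_mem (hsk i k) (hsk k j)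
    have h2 : (Matrix.single i k (1 : ℂ) - Matrix.single k i 1) * (Matrix.single k j 1 - Matrix.single j k 1) =
        Matrix.single i j 1 := by
      rw [sub_mul, mul_sub, mul_sub, Matrix.single_mul_single_same, Matrix.single_mul_single_of_ne _ _ _ _ hk.2,
        Matrix.single_mul_single_of_ne _ _ _ _ (Ne.symm hk.1), Matrix.single_mul_single_of_ne _ _ _ _ hij]
      simp
    rwa [h2] at h1
  have hdiag : ∀ i : n, Matrix.single i i (1 : ℂ) ∈ B := by
    intro i
    obtain ⟨j, hj⟩ : ∃ j : n, j ≠ i := by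
      by_contra hcon
      push Not at hcon
      have h1 : (Finset.univ : Finset n) ⊆ {i} := fun k _ => by simp [hcon k]
      have h2 := Finset.card_le_card h1
      rw [Finset.card_univ, Finset.card_singleton] at h2
      omega
    have h1 := B.mul_mem (hoff i j (Ne.symm hj)) (hoff j i hj)
    rwa [Matrix.single_mul_single_same, one_mul] at h1
  have hall : ∀ i j : n, Matrix.single i j (1 : ℂ) ∈ B := by
    intro i j
    by_cases h : i = j
    · subst h; exact hdiag i
    · exact hoff i j h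
  rw [Matrix.matrix_eq_sum_single a]
  refine B.sum_mem fun i _ => B.sum_mem fun j _ => ?_
  have h1 := B.smul_mem (hall i j) (a i j)
  rwa [Matrix.smul_single, smul_eq_mul, mul_one] at h1

/-- **Pair lemma.** -/
theorem pair_iso' (hn : 3 ≤ Fintype.card n) (h8 : Fintype.card n ≠ 8) (φ : sk n ≃ₗ[ℂ] sk m)
    (hφ : ∀ x y : sk n, φ (adS x y) = adS (φ x) (φ y)) :
    ∃ T : Matrix m n ℂ, T ≠ 0 ∧ ∀ x : sk n, T * x.1 = (φ x).1 * T := by
  classical
  have hcard := card_eq φ hφ (by omega)
  set X : Set (Matrix n n ℂ × Matrix m m ℂ) := {p | ∃ x : sk n, x.1ᴴ = x.1 ∧ p = (x.1, (φ x).1)} with hX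
  set A := Algebra.adjoin ℂ X with hA
  -- traces agree on the algebra
  have htr : ∀ p ∈ A, p.1.trace = p.2.trace := by
    intro p hp
    have h1 := adjoin_le_powers X ⟨_, 0, by simp, rfl⟩ (by
      rintro _ ⟨x, hx, rfl⟩ _ ⟨y, hy, rfl⟩ t
      refine ⟨x + (t : ℂ) • y, ?_, ?_⟩
      · rw [Submodule.coe_add, Submodule.coe_smul, conjTranspose_add, conjTranspose_smul, hx, hy]
        congr 2
        exact Complex.conj_ofReal t
      · rw [map_add, map_smul]
        rfl) (by
      rintro _ ⟨x, hx, rfl⟩ _ ⟨y, hy, rfl⟩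
      have h2 : ((Complex.I • adS x y : sk n).1)ᴴ = (Complex.I • adS x y : sk n).1 := by
        rw [Submodule.coe_smul, adS_coe, conjTranspose_smul, conjTranspose_sub, conjTranspose_mul,
          conjTranspose_mul, hx, hy]
        simp only [RCLike.star_def, Complex.conj_I]
        rw [neg_smul, ← smul_neg, neg_sub]
      refine ⟨_, ⟨Complex.I • adS x y, h2, rfl⟩, -Complex.I, ?_⟩
      rw [map_smul, hφ]
      apply Prod.ext
      · simp only [Prod.fst_sub, Prod.fst_mul, Prod.smul_fst, Submodule.coe_smul, adS_coe, smul_smul]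
        rw [neg_mul, Complex.I_mul_I, neg_neg, one_smul]
      · simp only [Prod.snd_sub, Prod.snd_mul, Prod.smul_snd, Submodule.coe_smul, adS_coe, smul_smul]
        rw [neg_mul, Complex.I_mul_I, neg_neg, one_smul]) p hp
    refine Submodule.span_induction (p := fun p _ => p.1.trace = p.2.trace) ?_ ?_ ?_ ?_ h1
    · rintro _ ⟨_, ⟨x, hx, rfl⟩, k, rfl⟩
      rcases k with _ | k
      · rw [pow_zero, Prod.fst_one, Prod.snd_one, Matrix.trace_one, Matrix.trace_one, hcard]
      · rw [Prod.pow_fst, Prod.pow_snd]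
        exact (pk_eq φ hφ hn h8 x hx k).symm
    · simp
    · intro p q _ _ h1 h2
      rw [Prod.fst_add, Prod.snd_add, Matrix.trace_add, Matrix.trace_add, h1, h2]
    · intro c p _ h1
      rw [Prod.smul_fst, Prod.smul_snd, Matrix.trace_smul, Matrix.trace_smul, h1]
  -- the graph lies in the algebra
  have hgraph : ∀ x : sk n, (x.1, (φ x).1) ∈ A := by
    intro x
    have hxs : (x.1ᴴ)ᵀ = -x.1ᴴ := by
      have h1 : (x.1ᴴ)ᵀ = (x.1ᵀ)ᴴ := rfl
      rw [h1, mem_sk.1 x.2, conjTranspose_neg]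
    set x' : sk n := ⟨x.1ᴴ, hxs⟩ with hx'
    set u : sk n := (1 / 2 : ℂ) • (x + x') with hu
    set w : sk n := (-Complex.I / 2) • (x - x') with hw
    have hxx : x = u + Complex.I • w := by
      rw [hu, hw, smul_smul]
      have : Complex.I * (-Complex.I / 2) = 1 / 2 := by
        rw [neg_div, mul_neg, ← mul_div_assoc, Complex.I_mul_I]
        ring
      rw [this]
      module
    have hu' : u.1ᴴ = u.1 := by
      rw [hu]
      simp only [Submodule.coe_smul, Submodule.coe_add, hx', conjTranspose_smul, conjTranspose_add,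
        conjTranspose_conjTranspose]
      rw [add_comm]
      congr 1
      simp
    have hw' : w.1ᴴ = w.1 := by
      rw [hw]
      simp only [Submodule.coe_smul, Submodule.coe_sub, hx', conjTranspose_smul, conjTranspose_sub,
        conjTranspose_conjTranspose]
      have : star (-Complex.I / 2) = Complex.I / 2 := by
        simp
      rw [this]
      module
    have h1 : (u.1, (φ u).1) ∈ A := Algebra.subset_adjoin ⟨u, hu', rfl⟩
    have h2 : (w.1, (φ w).1) ∈ A := Algebra.subset_adjoin ⟨w, hw', rfl⟩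
    have h3 := A.add_mem h1 (A.smul_mem h2 Complex.I)
    have h4 : (u.1, (φ u).1) + Complex.I • (w.1, (φ w).1) = (x.1, (φ x).1) := by
      have h5 : φ x = φ u + Complex.I • φ w := by
        have h7 := congrArg φ hxx
        rw [LinearEquiv.map_add, LinearEquiv.map_smul φ Complex.I w] at h7
        exact h7
      have h6 : x.1 = u.1 + Complex.I • w.1 := congrArg Subtype.val hxx
      rw [h5, h6]
      rfl
    rwa [h4] at h3
  -- the projections are surjective
  have hfst : ∀ a : Matrix n n ℂ, ∃ b, (a, b) ∈ A := by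
    intro a
    have h1 := adjoin_sk hn (B := A.map (AlgHom.fst ℂ (Matrix n n ℂ) (Matrix m m ℂ))) (by
      intro x hx
      exact ⟨_, hgraph ⟨x, hx⟩, rfl⟩) a
    obtain ⟨p, hp, rfl⟩ := h1
    exact ⟨p.2, hp⟩
  have hsnd : ∀ b : Matrix m m ℂ, ∃ a, (a, b) ∈ A := by
    intro b
    have h1 := adjoin_sk (by omega) (B := A.map (AlgHom.snd ℂ (Matrix n n ℂ) (Matrix m m ℂ))) (by
      intro y hy
      refine ⟨_, hgraph (φ.symm ⟨y, hy⟩), ?_⟩
      show (φ (φ.symm ⟨y, hy⟩)).1 = y
      rw [LinearEquiv.apply_symm_apply]) b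
    obtain ⟨p, hp, rfl⟩ := h1
    exact ⟨p.1, hp⟩
  have hn0 : (Fintype.card n : ℂ) ≠ 0 := by exact_mod_cast (by omega : Fintype.card n ≠ 0)
  have hinj1 : ∀ b, ((0 : Matrix n n ℂ), b) ∈ A → b = 0 := by
    intro b hb
    by_contra h0
    have h1 := htr _ (one_mem_right hsnd hb h0)
    rw [Matrix.trace_zero, Matrix.trace_one, ← hcard] at h1
    exact hn0 h1.symm
  have hinj2 : ∀ a, (a, (0 : Matrix m m ℂ)) ∈ A → a = 0 := by
    intro a ha
    by_contra h0
    have h1 := htr _ (one_mem_left hfst ha h0)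
    rw [Matrix.trace_zero, Matrix.trace_one] at h1
    exact hn0 h1
  -- the algebra is the graph of an isomorphism
  let f1 : A →ₐ[ℂ] Matrix n n ℂ := (AlgHom.fst ℂ _ _).comp A.val
  let f2 : A →ₐ[ℂ] Matrix m m ℂ := (AlgHom.snd ℂ _ _).comp A.val
  have hf1 : Function.Bijective f1 := by
    constructor
    · rw [injective_iff_map_eq_zero]
      rintro ⟨⟨a, b⟩, hp⟩ h
      have h1 : a = 0 := h
      subst h1
      have h2 := hinj1 b hp
      subst h2
      rfl
    · intro a
      obtain ⟨b, hb⟩ := hfst a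
      exact ⟨⟨_, hb⟩, rfl⟩
  have hf2 : Function.Bijective f2 := by
    constructor
    · rw [injective_iff_map_eq_zero]
      rintro ⟨⟨a, b⟩, hp⟩ h
      have h1 : b = 0 := h
      subst h1
      have h2 := hinj2 a hp
      subst h2
      rfl
    · intro b
      obtain ⟨a, ha⟩ := hsnd b
      exact ⟨⟨_, ha⟩, rfl⟩
  let e1 := AlgEquiv.ofBijective f1 hf1
  let e2 := AlgEquiv.ofBijective f2 hf2
  let F : Module.End ℂ (n → ℂ) ≃ₐ[ℂ] Module.End ℂ (m → ℂ) :=
    (Matrix.toLinAlgEquiv' (R := ℂ) (n := n)).symm.trans ((e1.symm.trans e2).trans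
      (Matrix.toLinAlgEquiv' (R := ℂ) (n := m)))
  obtain ⟨T, hT⟩ := F.eq_linearEquivConjAlgEquiv
  have hF : ∀ x : sk n, F (Matrix.toLin' x.1) = Matrix.toLin' (φ x).1 := by
    intro x
    have h1 : e1 ⟨_, hgraph x⟩ = x.1 := rfl
    have h2 : e1.symm x.1 = ⟨_, hgraph x⟩ := e1.injective (by rw [AlgEquiv.apply_symm_apply, h1])
    have h3 : (Matrix.toLinAlgEquiv' (R := ℂ) (n := n)).symm (Matrix.toLin' x.1) = x.1 := by
      apply (Matrix.toLinAlgEquiv' (R := ℂ) (n := n)).injective
      rw [AlgEquiv.apply_symm_apply]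
      rfl
    show Matrix.toLinAlgEquiv' (e2 (e1.symm ((Matrix.toLinAlgEquiv' (R := ℂ) (n := n)).symm (Matrix.toLin' x.1)))) = _
    rw [h3, h2]
    rfl
  refine ⟨LinearMap.toMatrix' (T : (n → ℂ) →ₗ[ℂ] (m → ℂ)), ?_, fun x => ?_⟩
  · intro h0
    have h1 : (T : (n → ℂ) →ₗ[ℂ] (m → ℂ)) = 0 := by
      apply LinearMap.toMatrix'.injective
      rw [h0, map_zero]
    have h2 : Nonempty n := by
      rw [← Fintype.card_pos_iff]
      omega
    obtain ⟨i⟩ := h2
    have h3 := LinearMap.congr_fun h1 (Pi.single i 1)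
    have h4 : (Pi.single i 1 : n → ℂ) = 0 := T.injective (by rw [map_zero]; exact h3)
    have h5 := congrFun h4 i
    simp at h5
  · apply Matrix.toLin'.injective
    rw [Matrix.toLin'_mul, Matrix.toLin'_mul, Matrix.toLin'_toMatrix', ← hF, hT]
    apply LinearMap.ext
    intro v
    rw [LinearEquiv.conjAlgEquiv_apply]
    simp

theorem pair_iso {n m : Type} [Fintype n] [DecidableEq n] [Fintype m] [DecidableEq m] (hn : 9 ≤ Fintype.card n)
    (φ : sk n ≃ₗ[ℂ] sk m) (hφ : ∀ x y : sk n, φ (adS x y) = adS (φ x) (φ y)) :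
    ∃ T : Matrix m n ℂ, T ≠ 0 ∧ ∀ x : sk n, T * x.1 = (φ x).1 * T :=
  pair_iso' (by omega) (by omega) φ hφ

end TR
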